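import Mathlib
import Pool.Agent.H822.BK.BridgeBlk
import Pool.Agent.H822.SM.GOne

/-!
# The symplectomorphisms with a positive block form an iterated loop space

Let `G_n = Symp_ct(ℝ^{2n})`, and write `(x, y, w)` for the points of `ℝ^{2(k+n)}`, with
`x, y ∈ ℝ^k` and `w ∈ ℝ^{2n}`.  Let `A ⊆ G_{k+n}` be the (open) set of the maps `φ` for which the
`k × k` block `∂x(φ)/∂x` of the derivative has no real eigenvalue `≤ 0`, at any point.  If
`φ (x, y, w) = (x', y', w')` then `w' = b (x', y) w` for a compactly supported map `b` from
`ℝ^{2k}` to `G_n`, the transition map of `φ`.  The theorem says that `φ ↦ b` is injective and is a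
weak homotopy equivalence from `A` to `Ω^{2k} G_n`, for all `n ≥ 1` and all `k`.  In particular,
if `n = 1` then `A` is weakly contractible.
-/

set_option autoImplicit false

open scoped ContDiff
open Set Filter Topology Function
open Q170.SC Pool.Agent.H822 Pool.Agent.H822.EF

namespace Pool.Agent.Results.MP_ec5dc5_gt.BlockPositiveMaps

/-- The equivalence of `A` and `Ω^{2k} G_n`, for families with parameters in `P`. -/
structure Equivalence (k n : ℕ) (P : Type) [NormedAddCommGroup P] [NormedSpace ℝ P] : Prop where
  /-- Each family `φ` in `A` has a unique transition map `b`, and `b` is a smooth compactly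
  supported map from `P × ℝ^{2k}` to `G_n`. -/
  transition : ∀ φ : P → SympCt (k + n), BlockMap φ →
    ∃ b : P × E k → SympCt n, Fam b ∧ IsTransition φ b ∧ ∀ b', IsTransition φ b' → b' = b
  /-- A family in `A` is determined by its transition map. -/
  determined : ∀ (φ φ' : P → SympCt (k + n)) (b : P × E k → SympCt n), BlockMap φ → BlockMap φ' →
    IsTransition φ b → IsTransition φ' b → φ = φ'
  /-- Two families are homotopic in `A` if and only if their transition maps are homotopic. -/
  injective : ∀ (φ φ' : P → SympCt (k + n)) (b b' : P × E k → SympCt n), BlockMap φ → BlockMap φ' →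
    IsTransition φ b → IsTransition φ' b' → (BlockHtp φ φ' ↔ Htp b b')
  /-- Each compactly supported map from `P × ℝ^{2k}` to `G_n` is homotopic to the transition map
  of a family in `A`. -/
  surjective : ∀ b : P × E k → SympCt n, Fam b →
    ∃ (φ : P → SympCt (k + n)) (b' : P × E k → SympCt n),
      BlockMap φ ∧ IsTransition φ b' ∧ Htp b b'
  /-- If `n = 1`, or if all families in `G_n` are null-homotopic (as is known for `n = 2`), then
  all families in `A` are null-homotopic in `A`. -/
  trivial : (n = 1 ∨ GTrivial n) → ∀ φ : P → SympCt (k + n), BlockMap φ → BlockHtp φ (fun _ => 1)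

/-- **Block positive maps.**  Let `n ≥ 1` and `k ≥ 0`.  The set `A` of the compactly supported
symplectomorphisms of `ℝ^{2(k+n)}` for which the block `∂x(φ)/∂x` has no eigenvalue in `(-∞, 0]` is
weakly equivalent to `Ω^{2k} G_n`, in the sense of compactly supported smooth families with
parameters in any finite dimensional space `P`. -/
theorem result (n : ℕ) (hn : 0 < n) (k : ℕ)
    (P : Type) [NormedAddCommGroup P] [NormedSpace ℝ P] [FiniteDimensional ℝ P] :
    Equivalence k n P := by
  refine ⟨fun φ hφ => ?_, fun φ φ' b hφ hφ' hb hb' => ?_, fun φ φ' b b' hφ hφ' hb hb' => ?_,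
    fun b hb => ?_, fun h φ hφ => ?_⟩
  · rw [blockmap_iff] at hφ
    simp only [fam_iff, transition_iff]
    obtain ⟨b, hb, hl⟩ := BK.trans_exists hφ
    exact ⟨b, hb, hl, fun b' hb' => BK.trans_unique hφ hb' hl⟩
  · simp only [blockmap_iff, transition_iff] at *
    exact BK.trans_injective hn hφ hφ' hb hb'
  · simp only [blockmap_iff, transition_iff, htp_iff, blockhtp_iff] at *
    exact ⟨fun h => BK.htp_of_bhtp h hb hb', BK.bhtp_of_htp hn hφ hφ' hb hb'⟩
  · simp only [blockmap_iff, transition_iff, htp_iff, fam_iff] at *
    exact BK.trans_surj hn hb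
  · replace h := Pool.Agent.H822.SM.gtrivial_of h
    rw [gtrivial_iff'] at h
    rw [blockmap_iff] at hφ
    rw [blockhtp_iff]
    exact BK.block_trivial hn hφ fun b hb => h _ b hb

end Pool.Agent.Results.MP_ec5dc5_gt.BlockPositiveMaps
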