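import Mathlib
import Pool.Agent.H822.EX.BridgePos
import Pool.Agent.H822.SM.GOne

/-!
# The symplectomorphisms with `∂X/∂x > 0` form a double loop space

Let `G_n = Symp_ct(ℝ^{2n})` and let `A_{n+1} ⊆ G_{n+1}` be the set of the maps `ψ` for which the
function `X ∘ ψ` has positive derivative in the direction of the `X` axis, everywhere.  If `ψ` is
in `A_{n+1}` then the functions `(1 - s) Y + s Y ∘ ψ⁻¹` have no bounded orbits; their scattering
maps form a compactly supported family in `G_n` over the plane.  The theorem says that this map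
`A_{n+1} → Ω² G_n` is a weak homotopy equivalence for all `n ≥ 1`, and that the composition of its
inverse with the inclusion `A_{n+1} → G_{n+1}` is the Hamiltonian suspension.
-/

set_option autoImplicit false

open scoped ContDiff
open Set Filter Topology Function
open Q170.SC Pool.Agent.H822 Pool.Agent.H822.EF

namespace Pool.Agent.Results.MP_ec5dc5_gt.PositiveMaps

/-- The equivalence of `A_{n+1}` and `Ω² G_n`, for families with parameters in `P`. -/
structure Equivalence (n : ℕ) (χ : ℝ → ℝ) (P : Type) [NormedAddCommGroup P] [NormedSpace ℝ P] :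
    Prop where
  /-- The scattering map `b : P × ℝ² → G_n` of the linear path from `Y` to `Y ∘ φ⁻¹`. -/
  link : ∀ φ : P → SympCt (n + 1), PMap φ →
    ∃! b : P × ℝ × ℝ → SympCt n, Fam b ∧ IsLink χ φ b
  /-- It is bijective on homotopy classes: injectivity. -/
  injective : ∀ (φ φ' : P → SympCt (n + 1)) (b b' : P × ℝ × ℝ → SympCt n), PMap φ → PMap φ' →
    IsLink χ φ b → IsLink χ φ' b' → (PHtp φ φ' ↔ Htp b b')
  /-- It is bijective on homotopy classes: surjectivity. -/
  surjective : ∀ b : P × ℝ × ℝ → SympCt n, Fam b →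
    ∃ (φ : P → SympCt (n + 1)) (b' : P × ℝ × ℝ → SympCt n), PMap φ ∧ IsLink χ φ b' ∧ Htp b b'
  /-- In `G_{n+1}` the family `φ` is homotopic to the suspension of its scattering map. -/
  suspension : ∀ (φ ψ : P → SympCt (n + 1)) (b : P × ℝ × ℝ → SympCt n), PMap φ →
    IsLink χ φ b → IsSusp b ψ → Htp φ ψ
  /-- A family `φ` in `G_{n+1}` is homotopic to a family in `A_{n+1}` if and only if the family
  `Y ∘ φ⁻¹` is homotopic to `Y` through non-trapping functions. -/
  kernel : ∀ φ : P → SympCt (n + 1), Fam φ →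
    ((∃ φ' : P → SympCt (n + 1), PMap φ' ∧ Htp φ φ') ↔
      THtp (fun _ => Y) (fun p z => Y ((φ p)⁻¹.map z)))
  /-- If `n = 1`, or if all families in `G_n` are null-homotopic (as is known for `n = 2`), then
  all families in `A_{n+1}` are null-homotopic in `A_{n+1}`. -/
  trivial : (n = 1 ∨ GTrivial n) → ∀ φ : P → SympCt (n + 1), PMap φ → PHtp φ (fun _ => 1)

/-- **Positive maps.**  Let `n ≥ 1`.  The set `A_{n+1}` of the compactly supported
symplectomorphisms of `ℝ^{2n+2}` with `∂X/∂x > 0` is weakly equivalent to `Ω² G_n`, in the sense of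
compactly supported smooth families with parameters in any finite dimensional space `P`. -/
theorem result (n : ℕ) (hn : 0 < n) (χ : ℝ → ℝ) (hχ : Step χ)
    (P : Type) [NormedAddCommGroup P] [NormedSpace ℝ P] [FiniteDimensional ℝ P] :
    Equivalence n χ P := by
  rw [step_iff] at hχ
  refine ⟨fun φ hφ => ?_, fun φ φ' b b' hφ hφ' hb hb' => ?_, fun b hb => ?_,
    fun φ ψ b hφ hb hψ => ?_, fun φ hφ => ?_, fun h φ hφ => ?_⟩
  · rw [pmap_iff] at hφ
    simp only [fam_iff, link_iff]
    obtain ⟨b, hb, hl⟩ := EX.link_exists hχ hφ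
    exact ⟨b, ⟨hb, hl⟩, fun b' hb' => EX.link_unique hχ hφ hb'.2 hl⟩
  · simp only [pmap_iff, link_iff, htp_iff, phtp_iff] at *
    exact ⟨fun h => EX.htp_of_phtp hχ h hb hb', EX.phtp_of_htp hn hχ hφ hφ' hb hb'⟩
  · simp only [pmap_iff, link_iff, htp_iff, fam_iff] at *
    exact EX.link_surj hn hχ hb
  · simp only [pmap_iff, link_iff, htp_iff, susp_iff] at *
    exact EX.link_susp hn hχ hφ hb hψ
  · simp only [pmap_iff, htp_iff, fam_iff, thtp_iff] at *
    exact (EX.pos_kernel hn hχ hφ).symm
  · replace h := Pool.Agent.H822.SM.gtrivial_of h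
    rw [gtrivial_iff'] at h
    rw [pmap_iff] at hφ
    rw [phtp_iff]
    exact EX.pos_trivial hn hχ h hφ

end Pool.Agent.Results.MP_ec5dc5_gt.PositiveMaps
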