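import Mathlib
import Pool.Agent.H822.EX.Bridge
import Pool.Agent.H822.SM.GOne

/-!
# The scattering fibration `G_{n+1} → T_{n+1} → Ω G_n`

Let `G_n = Symp_ct(ℝ^{2n})` and let `T_{n+1}` be the space of the *non-trapping* functions on
`ℝ^{2n+2}`: smooth functions `L`, equal to the coordinate function `Y` off a compact set, whose
Hamiltonian flow has no bounded orbits.  Each orbit of `L` comes in along a line parallel to the
`X` axis and leaves along such a line, with the same `Y` and with the other coordinates changed by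
a map `b_Y` of `G_n`; the loop `b = (b_Y)` of maps is the scattering family of `L`.  The theorem
says that for all `n ≥ 1` the scattering map `T_{n+1} → Ω G_n` is a fibration (in the sense of
smooth families with compact support), on whose nonempty fibres `G_{n+1}` acts simply transitively,
and that the connecting map `Ω² G_n → G_{n+1}` is the Hamiltonian suspension.
-/

set_option autoImplicit false

open scoped ContDiff
open Set Filter Topology Function
open Q170.SC Pool.Agent.H822 Pool.Agent.H822.EF

namespace Pool.Agent.Results.MP_ec5dc5_gt.ScatteringSequence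

variable {n : ℕ}

/-- The fibration `G_{n+1} → T_{n+1} → Ω G_n` and its long exact sequence, for families with
parameters in the space `P`. -/
structure Sequence (n : ℕ) (P : Type) [NormedAddCommGroup P] [NormedSpace ℝ P] : Prop where
  /-- Each smooth family `L` of non-trapping functions has a unique scattering map `b`, which is
  a smooth family with compact support in `P × ℝ` of elements of `G_n`. -/
  scattering : ∀ L : P → E (n + 1) → ℝ, TMap L → ∃! b : P × ℝ → SympCt n, Fam b ∧ IsScat L b
  /-- `G_{n+1}` acts simply transitively on the fibres of the scattering map, in families. -/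
  fibres : ∀ (L L' : P → E (n + 1) → ℝ) (b b' : P × ℝ → SympCt n), TMap L → TMap L' →
    IsScat L b → IsScat L' b' →
    (b = b' ↔ ∃! φ : P → SympCt (n + 1), Fam φ ∧ L = fun p z => L' p ((φ p).map z))
  /-- Homotopic families have homotopic scattering maps, and each homotopy of scattering maps
  can be lifted. -/
  homotopy : ∀ (L : P → E (n + 1) → ℝ) (b b' : P × ℝ → SympCt n), TMap L → IsScat L b →
    (Htp b b' ↔ ∃ L' : P → E (n + 1) → ℝ, TMap L' ∧ IsScat L' b' ∧ THtp L L')
  /-- Each map `b` from `P × ℝ²` to `G_n` has a suspension, a map from `P` to `G_{n+1}`. -/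
  suspension : ∀ b : P × ℝ × ℝ → SympCt n, Fam b →
    ∃ ψ : P → SympCt (n + 1), Fam ψ ∧ IsSusp b ψ
  /-- The homotopy class of the suspension depends only on the homotopy class of the map. -/
  suspension_homotopy : ∀ (b b' : P × ℝ × ℝ → SympCt n) (ψ ψ' : P → SympCt (n + 1)),
    Htp b b' → IsSusp b ψ → IsSusp b' ψ' → Htp ψ ψ'
  /-- Two families `φ`, `φ'` in `G_{n+1}` give homotopic families `Y ∘ φ⁻¹`, `Y ∘ φ'⁻¹` in
  `T_{n+1}` if and only if they differ by a suspension. -/
  kernel : ∀ φ φ' : P → SympCt (n + 1), Fam φ → Fam φ' →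
    (THtp (fun p z => Y ((φ p)⁻¹.map z)) (fun p z => Y ((φ' p)⁻¹.map z)) ↔
      ∃ (b : P × ℝ × ℝ → SympCt n) (ψ : P → SympCt (n + 1)),
        Fam b ∧ IsSusp b ψ ∧ Htp φ' (fun p => φ p * ψ p))
  /-- The suspension of `b` is null-homotopic if and only if `b` is the scattering map of a
  family of non-trapping functions with parameters in `P × ℝ`. -/
  trivial : ∀ (b : P × ℝ × ℝ → SympCt n) (ψ : P → SympCt (n + 1)), Fam b → IsSusp b ψ →
    (Htp ψ (fun _ => 1) ↔ ∃ L : P × ℝ → E (n + 1) → ℝ, TMap L ∧
      IsScat L (fun q => b (q.1.1, q.1.2, q.2)))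

/-- If `n = 1`, or if every family in `G_n` is null-homotopic (as is known for `n = 2`), then
`φ ↦ Y ∘ φ⁻¹` is a weak homotopy equivalence from `G_{n+1}` to `T_{n+1}`, and the questions for
`ℝ^{2n+2}` are questions on non-trapping functions. -/
structure Reformulation (n : ℕ) : Prop where
  surjective : ∀ (P : Type) [NormedAddCommGroup P] [NormedSpace ℝ P] [FiniteDimensional ℝ P]
    (L : P → E (n + 1) → ℝ), TMap L →
    ∃ φ : P → SympCt (n + 1), Fam φ ∧ THtp L (fun p z => Y ((φ p)⁻¹.map z))
  injective : ∀ (P : Type) [NormedAddCommGroup P] [NormedSpace ℝ P] [FiniteDimensional ℝ P]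
    (φ φ' : P → SympCt (n + 1)), Fam φ → Fam φ' →
    (Htp φ φ' ↔ THtp (fun p z => Y ((φ p)⁻¹.map z)) (fun p z => Y ((φ' p)⁻¹.map z)))
  /-- question (a) -/
  contractible : GTrivial (n + 1) ↔ TTrivial n
  /-- question (b) -/
  connected : PathConnectedSpace (SympCt (n + 1)) ↔
    ∀ L : E (n + 1) → ℝ, NonTrapping L → THtp (fun _ : Unit => L) (fun _ => Y)
  /-- question (c) -/
  countable : Countable (ZerothHomotopy (SympCt (n + 1))) ↔
    ∃ S : Set (E (n + 1) → ℝ), S.Countable ∧
      ∀ L : E (n + 1) → ℝ, NonTrapping L → ∃ M ∈ S, THtp (fun _ : Unit => L) (fun _ => M)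

/-- **The scattering fibration.**  Let `n ≥ 1`.  For each finite dimensional space `P` of
parameters there is the long exact sequence of the fibration `G_{n+1} → T_{n+1} → Ω G_n`; if
`n = 1` or if all families in `G_n` are null-homotopic then `G_{n+1}` and `T_{n+1}` are weakly
equivalent. -/
theorem result (n : ℕ) (hn : 0 < n) :
    (∀ (P : Type) [NormedAddCommGroup P] [NormedSpace ℝ P] [FiniteDimensional ℝ P],
      Sequence n P) ∧ ((n = 1 ∨ GTrivial n) → Reformulation n) := by
  refine ⟨fun P _ _ _ => ⟨?_, ?_, ?_, ?_, ?_, ?_, ?_⟩, fun h => ?_⟩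
  · intro L hL
    rw [tmap_iff] at hL
    simp only [fam_iff, scat_iff]
    obtain ⟨b, hb, hs⟩ := EX.scat_existsP hL
    exact ⟨b, ⟨hb, hs⟩, fun b' hb' => EX.scat_uniqueP hL.nt hb'.2 hs⟩
  · intro L L' b b' hL hL' hb hb'
    rw [tmap_iff] at hL hL'
    rw [scat_iff] at hb hb'
    simp only [fam_iff]
    exact EX.fibre_iff hn hL hL' hb hb'
  · intro L b b' hL hb
    rw [tmap_iff] at hL
    rw [scat_iff] at hb
    simp only [tmap_iff, scat_iff, thtp_iff, htp_iff]
    exact EX.lift_iff hn hL hb
  · intro b hb
    simp only [fam_iff, susp_iff] at *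
    exact EX.susp_existsP hn hb
  · intro b b' ψ ψ' h hψ hψ'
    rw [htp_iff] at *
    rw [susp_iff] at hψ hψ'
    exact EX.susp_htpP hn h hψ hψ'
  · intro φ φ' hφ hφ'
    simp only [fam_iff, susp_iff, htp_iff, thtp_iff] at *
    exact EX.same_iff hn hφ hφ'
  · intro b ψ hb hψ
    simp only [fam_iff, susp_iff, htp_iff, tmap_iff, scat_iff] at *
    exact ⟨EX.scat_of_null hn hb hψ, fun ⟨L, hL, hs⟩ => EX.null_of_scat hn hb hψ hL hs⟩
  · replace h := Pool.Agent.H822.SM.gtrivial_of h
    rw [gtrivial_iff'] at h
    refine ⟨?_, ?_, ?_, ?_, ?_⟩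
    · intro P _ _ _ L hL
      simp only [fam_iff, thtp_iff, tmap_iff] at *
      exact EX.surj_of_trivial hn h hL
    · intro P _ _ _ φ φ' hφ hφ'
      simp only [fam_iff, thtp_iff, htp_iff] at *
      exact EX.inj_of_trivial hn h hφ hφ'
    · rw [gtrivial_iff', ttrivial_iff']
      exact EX.gtrivial_iff hn h
    · simp only [thtp_iff, nt_iff]
      exact EX.pathConnected_of_trivial' hn h
    · simp only [thtp_iff, nt_iff]
      exact EX.countable_of_trivial' hn h

end Pool.Agent.Results.MP_ec5dc5_gt.ScatteringSequence
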