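import Mathlib
import Pool.Agent.H822.PairsMain

/-!
# `Symp_ct(ℝ^{2n})` acts simply transitively on the pairs of functions with standard bracket

Let `ℓ₁, ℓ₂` be linearly independent linear functions on `ℝ^{2n}`.  A *pair* is a pair of smooth
functions `(L₁, L₂)` which is equal to `(ℓ₁, ℓ₂)` off a compact set and has the same (constant)
Poisson bracket `{L₁, L₂} = {ℓ₁, ℓ₂}`; nothing is assumed on the differentials inside the compact
set.  The theorem says that the group `Symp_ct(ℝ^{2n})` acts simply transitively on the pairs, in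
smooth families with any finite dimensional space of parameters and without increase of the
(convex) support, and that its path components are the deformation classes of pairs.
-/

set_option autoImplicit false

open scoped ContDiff
open Set Filter Topology Function
open Q170.SC Pool.Agent.H822.Ham Pool.Agent.H822.Pairs Pool.Agent.H822.PairsMain
open Pool.Agent.Q191.SY

namespace Pool.Agent.Results.MP_ec5dc5_gt.StraightenedPairs

variable {n : ℕ}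

/-- A smooth family of pairs, with parameter in `P`, all standard off `K`. -/
structure PairFamily (ℓ₁ ℓ₂ : E n →L[ℝ] ℝ) (K : Set (E n)) (P : Type) [NormedAddCommGroup P]
    [NormedSpace ℝ P] (L₁ L₂ : P → E n → ℝ) : Prop where
  smooth₁ : ContDiff ℝ ∞ (fun q : P × E n => L₁ q.1 q.2)
  smooth₂ : ContDiff ℝ ∞ (fun q : P × E n => L₂ q.1 q.2)
  pair : ∀ p, IsPair ℓ₁ ℓ₂ K (L₁ p) (L₂ p)

/-- A smooth family of elements of `Symp_ct(ℝ^{2n})`, with parameter in `P`, all supported in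
`K`. -/
structure SympFamily (K : Set (E n)) (P : Type) [NormedAddCommGroup P]
    [NormedSpace ℝ P] (Φ : P → SympCt n) : Prop where
  smooth : ContDiff ℝ ∞ (fun q : P × E n => (Φ q.1).map q.2)
  supp : ∀ p, SuppIn K (Φ p).perm

/-- Two pairs are deformations of each other: they are joined by a smooth family of pairs, all
standard off one compact set. -/
def Deformable (ℓ₁ ℓ₂ : E n →L[ℝ] ℝ) (L₁ L₂ M₁ M₂ : E n → ℝ) : Prop :=
  ∃ K : Set (E n), IsCompact K ∧ ∃ F₁ F₂ : ℝ → E n → ℝ, PairFamily ℓ₁ ℓ₂ K ℝ F₁ F₂ ∧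
    F₁ 0 = L₁ ∧ F₂ 0 = L₂ ∧ F₁ 1 = M₁ ∧ F₂ 1 = M₂

/-- An element of `Symp_ct(ℝ^{2n})` is determined by its composition with `ℓ`. -/
def Free (ℓ : E n →L[ℝ] ℝ) : Prop :=
  ∀ φ ψ : SympCt n, (∀ z, ℓ (φ.map z) = ℓ (ψ.map z)) → φ = ψ

/-- `Symp_ct(ℝ^{2n})` acts transitively on the pairs, in smooth families: each smooth family of
pairs, standard off a compact convex set `K`, is straightened by a smooth family of elements of
the group supported in `K`. -/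
def Transitive (ℓ₁ ℓ₂ : E n →L[ℝ] ℝ) : Prop :=
  ∀ (P : Type) [NormedAddCommGroup P] [NormedSpace ℝ P] [FiniteDimensional ℝ P]
    (K : Set (E n)) (L₁ L₂ : P → E n → ℝ), IsCompact K → Convex ℝ K →
    PairFamily ℓ₁ ℓ₂ K P L₁ L₂ → ∃ Φ : P → SympCt n, SympFamily K P Φ ∧
      ∀ p z, L₁ p ((Φ p).map z) = ℓ₁ z ∧ L₂ p ((Φ p).map z) = ℓ₂ z

theorem ne_zero_of {ℓ₁ ℓ₂ : E n →L[ℝ] ℝ} (h : LinearIndependent ℝ ![ℓ₁, ℓ₂]) : ℓ₁ ≠ 0 := by
  have := h.ne_zero 0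
  simpa using this

theorem exists_convex {K : Set (E n)} (hK : IsCompact K) :
    ∃ K' : Set (E n), IsCompact K' ∧ Convex ℝ K' ∧ K ⊆ K' := by
  obtain ⟨R, hR⟩ := hK.isBounded.subset_closedBall 0
  exact ⟨Metric.closedBall 0 R, isCompact_closedBall 0 R, convex_closedBall 0 R, hR⟩

theorem joined_of (ℓ₁ ℓ₂ : E n →L[ℝ] ℝ) (h : LinearIndependent ℝ ![ℓ₁, ℓ₂]) (φ ψ : SympCt n) :
    Joined φ ψ ↔ Deformable ℓ₁ ℓ₂ (fun z => ℓ₁ (φ⁻¹.map z)) (fun z => ℓ₂ (φ⁻¹.map z))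
      (fun z => ℓ₁ (ψ⁻¹.map z)) (fun z => ℓ₂ (ψ⁻¹.map z)) := by
  rw [joined_iff]
  constructor
  · intro hs
    obtain ⟨K, hK, Φ, h1, h2, h3, h4⟩ := si_inv hs
    refine ⟨K, hK, fun t z => ℓ₁ ((Φ t).map z), fun t z => ℓ₂ ((Φ t).map z),
      ⟨ℓ₁.contDiff.comp h1, ℓ₂.contDiff.comp h1, fun t => pair_of ℓ₁ ℓ₂ (Φ t) (h2 t)⟩,
      ?_, ?_, ?_, ?_⟩
    · show (fun z => ℓ₁ ((Φ 0).map z)) = _
      rw [h3]
    · show (fun z => ℓ₂ ((Φ 0).map z)) = _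
      rw [h3]
    · show (fun z => ℓ₁ ((Φ 1).map z)) = _
      rw [h4]
    · show (fun z => ℓ₂ ((Φ 1).map z)) = _
      rw [h4]
  · rintro ⟨K, hK, F₁, F₂, ⟨h1, _, h3⟩, h4, _, h6, _⟩
    obtain ⟨K', hK', hconv, hsub⟩ := exists_convex hK
    obtain ⟨Φ, k1, k2, k3⟩ := exists_family ℓ₁ ℓ₂ h K' hK' hconv F₁ F₂ h1
      (fun t => IsPair.mono (h3 t) hsub)
    have hne := ne_zero_of h
    have e0 : Φ 0 = φ := by
      refine unique_of ℓ₁ hne (F₁ 0) _ _ (fun z => (k3 0 z).1) fun z => ?_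
      rw [h4]
      exact congrArg ℓ₁ (inv_map_map φ z)
    have e1 : Φ 1 = ψ := by
      refine unique_of ℓ₁ hne (F₁ 1) _ _ (fun z => (k3 1 z).1) fun z => ?_
      rw [h6]
      exact congrArg ℓ₁ (inv_map_map ψ z)
    exact ⟨K', hK', Φ, k1, k2, e0, e1⟩

/-- **Simple transitivity on pairs.**  Let `ℓ₁, ℓ₂` be linearly independent linear functions on
`ℝ^{2n}`.
1. (Freeness, one function.)  An element `φ` of `Symp_ct(ℝ^{2n})` is determined by `ℓ₁ ∘ φ`.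
2. (Transitivity, in families.)  Let `(L₁ p, L₂ p)` be a smooth family of pairs, with parameter `p`
in a finite dimensional space, all standard off one compact convex set `K`.  There is a family
`Φ p` of elements of `Symp_ct(ℝ^{2n})` with `Lᵢ p ∘ Φ p = ℓᵢ`; it is smooth, and all its
members are supported in `K` (by 1. it is unique).
3. Two elements `φ, ψ` are in the same path component if and only if the pairs
`(ℓ₁ ∘ φ⁻¹, ℓ₂ ∘ φ⁻¹)` and `(ℓ₁ ∘ ψ⁻¹, ℓ₂ ∘ ψ⁻¹)` are joined by a smooth family of pairs.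
4. `Symp_ct(ℝ^{2n})` is path-connected if and only if every pair can be deformed to `(ℓ₁, ℓ₂)`. -/
theorem result (n : ℕ) (ℓ₁ ℓ₂ : E n →L[ℝ] ℝ) (h : LinearIndependent ℝ ![ℓ₁, ℓ₂]) :
    Free ℓ₁ ∧ Transitive ℓ₁ ℓ₂ ∧
    (∀ φ ψ : SympCt n, Joined φ ψ ↔
      Deformable ℓ₁ ℓ₂ (ℓ₁ ∘ φ⁻¹.map) (ℓ₂ ∘ φ⁻¹.map) (ℓ₁ ∘ ψ⁻¹.map) (ℓ₂ ∘ ψ⁻¹.map)) ∧
    (PathConnectedSpace (SympCt n) ↔ ∀ (K : Set (E n)) (L₁ L₂ : E n → ℝ), IsCompact K →
      IsPair ℓ₁ ℓ₂ K L₁ L₂ → Deformable ℓ₁ ℓ₂ L₁ L₂ ℓ₁ ℓ₂) := by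
  have hne := ne_zero_of h
  refine ⟨fun φ ψ hφψ => ?_, ?_, joined_of ℓ₁ ℓ₂ h, ?_, ?_⟩
  · have h1 : ψ * φ⁻¹ = 1 := by
      refine eq_one_of ℓ₁ hne _ fun z => ?_
      rw [mul_map, ← hφψ, map_inv_map]
    exact (mul_inv_eq_one.1 h1).symm
  · intro P _ _ _ K L₁ L₂ hK hconv hP
    obtain ⟨Φ, k1, k2, k3⟩ := exists_family ℓ₁ ℓ₂ h K hK hconv L₁ L₂ hP.smooth₁ hP.pair
    exact ⟨Φ, ⟨k1, k2⟩, k3⟩
  · intro hpc K L₁ L₂ hK hP
    obtain ⟨K', hK', hconv, hsub⟩ := exists_convex hK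
    obtain ⟨Φ, k1, k2, k3⟩ := exists_family ℓ₁ ℓ₂ h (P := ℝ) K' hK' hconv (fun _ => L₁)
      (fun _ => L₂) (hP.smooth₁.comp contDiff_snd) (fun _ => IsPair.mono hP hsub)
    have h2 := (joined_of ℓ₁ ℓ₂ h (Φ 0) 1).1 (hpc.joined _ _)
    have e1 : (fun z => ℓ₁ ((Φ 0)⁻¹.map z)) = L₁ := by
      ext z
      rw [← (k3 0 ((Φ 0)⁻¹.map z)).1, map_inv_map]
    have e2 : (fun z => ℓ₂ ((Φ 0)⁻¹.map z)) = L₂ := by
      ext z
      rw [← (k3 0 ((Φ 0)⁻¹.map z)).2, map_inv_map]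
    rw [e1, e2] at h2
    have e3 : (fun z => ℓ₁ ((1 : SympCt n)⁻¹.map z)) = ⇑ℓ₁ := by
      ext z
      rw [inv_one, one_map]
    have e4 : (fun z => ℓ₂ ((1 : SympCt n)⁻¹.map z)) = ⇑ℓ₂ := by
      ext z
      rw [inv_one, one_map]
    rw [e3, e4] at h2
    exact h2
  · intro hdef
    have key : ∀ φ : SympCt n, Joined φ 1 := by
      intro φ
      rw [joined_of ℓ₁ ℓ₂ h]
      obtain ⟨K, hK, hs⟩ := φ⁻¹.2.2
      have h2 := hdef K _ _ hK (pair_of ℓ₁ ℓ₂ φ⁻¹ hs)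
      have e3 : (fun z => ℓ₁ ((1 : SympCt n)⁻¹.map z)) = ⇑ℓ₁ := by
        ext z
        rw [inv_one, one_map]
      have e4 : (fun z => ℓ₂ ((1 : SympCt n)⁻¹.map z)) = ⇑ℓ₂ := by
        ext z
        rw [inv_one, one_map]
      rw [e3, e4]
      exact h2
    exact ⟨⟨1⟩, fun φ ψ => (key φ).trans (key ψ).symm⟩

end Pool.Agent.Results.MP_ec5dc5_gt.StraightenedPairs
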